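import Mathlib
import Pool.Agent.Work.MP_18afd0_nt.Defs
import Pool.Agent.Work.MP_18afd0_nt.Assembly

/-!
# The supercongruence attached to the Ramanujan series with `51 k + 7`

For every prime `p > 3` and every `a ≥ 1`,
`S_a(p) ≡ 7 χ₃(p^a) + (5/6) χ₃(p^(a-1)) p^2 B_{p-2}(1/3) (mod p^3)`.

The proof is in the files `Pool/Agent/Work/MP_18afd0_nt/*.lean`.
-/

namespace MP18afd0

open Finset

theorem denPrimeTo_of_mem {p : ℕ} [hp : Fact p.Prime] {x : ℚ} (h : x ∈ ZP p) : DenPrimeTo p x := by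
  unfold DenPrimeTo
  rw [Nat.coprime_comm, hp.out.coprime_iff_not_dvd]
  exact mem_ZP_iff_den.1 h

theorem chi3_mul (m n : ℕ) : chi3 (m * n) = chi3 m * chi3 n := by
  unfold chi3
  have hm : m % 3 = 0 ∨ m % 3 = 1 ∨ m % 3 = 2 := by omega
  have hn : n % 3 = 0 ∨ n % 3 = 1 ∨ n % 3 = 2 := by omega
  rw [Nat.mul_mod]
  rcases hm with h | h | h <;> rcases hn with h' | h' | h' <;> rw [h, h'] <;> norm_num

theorem chi3_pow {p : ℕ} [hp : Fact p.Prime] (h3 : 3 < p) (a : ℕ) :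
    ((chi3 (p ^ a) : ℤ) : ℚ) = chi p ^ a := by
  induction a with
  | zero => simp [chi3]
  | succ a ih =>
    rw [pow_succ, chi3_mul, Int.cast_mul, ih, pow_succ]
    congr 1
    have h0 : p % 3 ≠ 0 := by
      intro h
      have := (Nat.prime_dvd_prime_iff_eq Nat.prime_three hp.out).1 (Nat.dvd_of_mod_eq_zero h)
      omega
    have h : p % 3 = 1 ∨ p % 3 = 2 := by omega
    rcases h with h | h
    · rw [chi_one h]; unfold chi3; rw [h]; norm_num
    · rw [chi_two h]; unfold chi3; rw [h]; norm_num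

theorem sumS_eq (p a : ℕ) : sumS a p = SS p a := by
  unfold sumS SS T cc coef
  rw [one_div, mul_comm, ← div_eq_mul_inv]
  congr 1
  apply Finset.sum_congr rfl
  intro k _
  push_cast
  norm_num

end MP18afd0

open MP18afd0 in
/-- Full answer to Q1: for every prime `p > 3` and every `a ≥ 1`,
`S_a(p) ≡ 7 χ₃(p^a) + (5/6) χ₃(p^(a-1)) p^2 B_{p-2}(1/3) (mod p^3)`. -/
theorem Pool.Agent.Results.MP_18afd0_nt.SupercongruenceQ1.result :
    ∀ p : ℕ, Nat.Prime p → 3 < p → ∀ a : ℕ, 1 ≤ a →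
      RatCongr p 3 (sumS a p)
        (7 * (chi3 (p ^ a) : ℚ) +
          5 / 6 * (chi3 (p ^ (a - 1)) : ℚ) * (p : ℚ) ^ 2 *
            (Polynomial.bernoulli (p - 2)).eval (1 / 3)) := by
  intro p hp h3 a ha
  have hfact : Fact p.Prime := ⟨hp⟩
  obtain ⟨b, rfl⟩ : ∃ b, a = b + 1 := ⟨a - 1, by omega⟩
  rw [Nat.add_sub_cancel, chi3_pow h3, chi3_pow h3, sumS_eq]
  have hmain := SS_main h3 b
  have hB : (Polynomial.bernoulli (p - 2)).eval (1 / 3) ∈ ZP p := by
    rw [bern_eval]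
    apply sum_mem
    intro i hi
    rw [Finset.mem_range] at hi
    exact mul_mem (mul_mem (bernoulli_mem h3 i (by omega)) (nat_mem _))
      (pow_mem (third_mem h3) _)
  have hR : 7 * chi p ^ (b + 1) +
      5 / 6 * chi p ^ b * (p : ℚ) ^ 2 * (Polynomial.bernoulli (p - 2)).eval (1 / 3) ∈ ZP p := by
    refine add_mem (mul_mem ?_ (pow_mem chi_mem _))
      (mul_mem (mul_mem (mul_mem ?_ (pow_mem chi_mem _)) (pow_mem p_mem _)) hB)
    · exact_mod_cast nat_mem (p := p) 7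
    · exact const_mem h3 1 1 5 (by norm_num)
  have hS : SS p (b + 1) ∈ ZP p := hmain.mem hR
  exact ⟨denPrimeTo_of_mem hS, denPrimeTo_of_mem hR, denPrimeTo_of_mem (Dv_iff.1 hmain)⟩
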